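import Pool.Agent.Work.MP_a60482_h14.Grading

/-!
# The gap theorem for Kuenneth projectors (helper14)
-/

open CategoryTheory MonoidalCategory CartesianMonoidalCategory
open scoped TensorProduct

universe u v w x

namespace Pool.KC

namespace WeilTheory

variable {V : Type u} [Category.{v} V] [CartesianMonoidalCategory V] {K : Type x} [Field K]
variable (T : WeilTheory.{u, v, w, x} V K)

/-- the algebraic classes in the span of the Kuenneth components of the diagonal -/
noncomputable def AlgComb (X : V) : Submodule K (T.H (X ⊗ X)) :=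
  Submodule.span K {z | ∃ i ≤ 2 * T.dim X, T.kunnethComponent X i = z} ⊓
    T.C (X ⊗ X) (T.dim X)

variable {T}

theorem act_kunneth_scal {X : V} {i : ℕ} (hi : i ≤ 2 * T.dim X) (k : ℕ) (a : T.H X)
    (ha : a ∈ T.deg X k) :
    T.act (T.kunnethComponent X i) a = (if k = i then (1 : K) else 0) • a := by
  rw [T.act_kunneth hi]
  split_ifs with h
  · subst h
    rw [T.proj_same ha, one_smul]
  · rw [T.proj_ne ha h, zero_smul]

theorem exists_scal_of_mem_span {X : V} {z : T.H (X ⊗ X)}
    (hz : z ∈ Submodule.span K {z | ∃ i ≤ 2 * T.dim X, T.kunnethComponent X i = z}) :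
    ∃ c : ℕ → K, ∀ (k : ℕ) (a : T.H X), a ∈ T.deg X k → T.act z a = c k • a := by
  induction hz using Submodule.span_induction with
  | mem z hz =>
    obtain ⟨i, hi, rfl⟩ := hz
    exact ⟨_, fun k a ha => act_kunneth_scal hi k a ha⟩
  | zero => exact ⟨0, fun k a _ => by rw [T.act_zero]; simp⟩
  | add z z' _ _ h1 h2 =>
    obtain ⟨c, hc⟩ := h1
    obtain ⟨d, hd⟩ := h2
    refine ⟨c + d, fun k a ha => ?_⟩
    rw [T.act_add, LinearMap.add_apply, hc k a ha, hd k a ha, Pi.add_apply, add_smul]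
  | smul r z _ h1 =>
    obtain ⟨c, hc⟩ := h1
    refine ⟨r • c, fun k a ha => ?_⟩
    rw [T.act_smul, LinearMap.smul_apply, hc k a ha, Pi.smul_apply, smul_smul, smul_eq_mul]

theorem exists_functional (X : V) (hX : ∀ i ≤ 2 * T.dim X, T.deg X i ≠ ⊥) :
    ∃ φ : ℕ → T.H (X ⊗ X) →ₗ[K] K, ∀ (z : T.H (X ⊗ X)) (c : ℕ → K),
      (∀ (k : ℕ) (a : T.H X), a ∈ T.deg X k → T.act z a = c k • a) →
        ∀ k ≤ 2 * T.dim X, φ k z = c k := by
  have h1 : ∀ k, ∃ φ : T.H (X ⊗ X) →ₗ[K] K, k ≤ 2 * T.dim X → ∀ (z : T.H (X ⊗ X)) (c : ℕ → K),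
      (∀ (k : ℕ) (a : T.H X), a ∈ T.deg X k → T.act z a = c k • a) → φ z = c k := by
    intro k
    by_cases hk : k ≤ 2 * T.dim X
    · obtain ⟨a, ha, ha0⟩ := Submodule.exists_mem_ne_zero_of_ne_bot (hX k hk)
      obtain ⟨b, hb⟩ : ∃ b, T.tr X (b * a) ≠ 0 := by
        by_contra hno
        push Not at hno
        exact ha0 (T.nondeg hno)
      refine ⟨(T.tr X (b * a))⁻¹ • (T.tr X ∘ₗ LinearMap.mulLeft K b ∘ₗ T.push X X ∘ₗ
        LinearMap.mulLeft K (T.pull (fst X X) a)), fun _ z c h => ?_⟩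
      have h2 : T.push X X (T.pull (fst X X) a * z) = c k • a := by
        rw [← T.act_apply, h k a ha]
      simp only [LinearMap.smul_apply, LinearMap.comp_apply, LinearMap.mulLeft_apply]
      rw [h2, mul_smul_comm, map_smul, smul_eq_mul, smul_eq_mul, mul_left_comm,
        inv_mul_cancel₀ hb, mul_one]
    · exact ⟨0, fun h => absurd h hk⟩
  choose φ hφ using h1
  exact ⟨φ, fun z c h k hk => hφ k hk z c h⟩

/-- few free scalars, few algebraic combinations -/
theorem finrank_algComb_le (X : V) (hX : ∀ i ≤ 2 * T.dim X, T.deg X i ≠ ⊥) (A g : ℕ)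
    (hper : ∀ c : ℕ → K, T.Scal X c → ∀ k, A ≤ k → k + g + A ≤ 2 * T.dim X →
      c k = c (k + g)) (hg : 1 ≤ g) : Module.finrank K (T.AlgComb X) ≤ A + g + A := by
  obtain ⟨φ, hφ⟩ := exists_functional (T := T) X hX
  let L : T.AlgComb X →ₗ[K] (Fin (A + g) ⊕ Fin A → K) :=
    LinearMap.pi (Sum.elim (fun i => φ i) (fun i => φ (2 * T.dim X - i))) ∘ₗ
      (T.AlgComb X).subtype
  have hL : Function.Injective L := by
    rw [injective_iff_map_eq_zero]
    rintro ⟨z, hz⟩ h0
    obtain ⟨c, hc⟩ := exists_scal_of_mem_span hz.1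
    have hS : T.Scal X c := ⟨T.act z, T.act_mem_ops.2 hz.2, hc⟩
    have h1 : ∀ i < A + g, i ≤ 2 * T.dim X → c i = 0 := by
      intro i hi hi'
      have h2 := congrFun h0 (Sum.inl ⟨i, hi⟩)
      have h3 : φ i z = 0 := h2
      rwa [hφ z c hc i hi'] at h3
    have h2 : ∀ i < A, c (2 * T.dim X - i) = 0 := by
      intro i hi
      have h2 := congrFun h0 (Sum.inr ⟨i, hi⟩)
      have h3 : φ (2 * T.dim X - i) z = 0 := h2
      rwa [hφ z c hc _ (by omega)] at h3
    have h3 : ∀ k, k ≤ 2 * T.dim X → c k = 0 := by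
      intro k
      induction k using Nat.strong_induction_on with
      | _ k ih =>
        intro hk
        by_cases hk1 : k < A + g
        · exact h1 k hk1 hk
        · by_cases hk2 : 2 * T.dim X < k + A
          · have h4 := h2 (2 * T.dim X - k) (by omega)
            rwa [show 2 * T.dim X - (2 * T.dim X - k) = k by omega] at h4
          · have h4 := hper c hS (k - g) (by omega) (by omega)
            rw [show k - g + g = k by omega] at h4
            rw [← h4]
            exact ih (k - g) (by omega) (by omega)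
    have h4 : T.act z = 0 := by
      ext a
      refine T.hind (P := fun a => T.act z a = (0 : Module.End K (T.H X)) a) (by simp) ?_ ?_ a
      · intro k a ha
        rw [hc k a ha, LinearMap.zero_apply]
        by_cases hk : k ≤ 2 * T.dim X
        · rw [h3 k hk, zero_smul]
        · rw [T.deg_eq_zero ha (by omega), smul_zero]
      · intro a b h5 h6
        rw [map_add, map_add, h5, h6]
    have h5 : z = 0 := T.act_injective (by rw [h4, T.act_zero])
    exact Subtype.ext h5
  have h6 := LinearMap.finrank_le_finrank_of_injective hL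
  rw [Module.finrank_fintype_fun_eq_card, Fintype.card_sum, Fintype.card_fin,
    Fintype.card_fin] at h6
  exact h6

theorem le_finrank_algComb (X : V) (hX : ∀ i ≤ 2 * T.dim X, T.deg X i ≠ ⊥)
    (hC : T.ConjC X) : 2 * T.dim X + 1 ≤ Module.finrank K (T.AlgComb X) := by
  let f : Fin (2 * T.dim X + 1) → T.AlgComb X := fun i =>
    ⟨T.kunnethComponent X i, Submodule.subset_span ⟨i, by omega, rfl⟩, hC i (by omega)⟩
  have hf : LinearIndependent K f := by
    rw [Fintype.linearIndependent_iff]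
    intro c h0 i
    have h1 : ∑ j, c j • T.kunnethComponent X j = 0 := by
      have h2 := congrArg (T.AlgComb X).subtype h0
      rw [map_sum, map_zero] at h2
      simpa [f] using h2
    obtain ⟨a, ha, ha0⟩ := Submodule.exists_mem_ne_zero_of_ne_bot (hX i (by omega))
    have h3 : T.push X X (T.pull (fst X X) a * ∑ j, c j • T.kunnethComponent X j) = 0 := by
      rw [h1, mul_zero, map_zero]
    rw [Finset.mul_sum, map_sum, Finset.sum_eq_single i] at h3
    · rw [mul_smul_comm, map_smul, ← T.act_apply, act_kunneth_scal (by omega) i a ha,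
        if_pos rfl, one_smul] at h3
      exact (smul_eq_zero.1 h3).resolve_right ha0
    · intro j _ hj
      rw [mul_smul_comm, map_smul, ← T.act_apply, act_kunneth_scal (by omega) i a ha,
        if_neg, zero_smul, smul_zero]
      intro h4
      exact hj (Fin.ext h4).symm
    · intro h4
      exact absurd (Finset.mem_univ i) h4
  have h5 := hf.fintype_card_le_finrank
  rwa [Fintype.card_fin] at h5

theorem deg_ex_ne_bot {X E : V} (hE : ∀ j ≤ 2, T.deg E j ≠ ⊥) {s : ℕ} (hs : T.deg X s ≠ ⊥)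
    (m : ℕ) : ∀ j ≤ 2 * m, T.deg (ex X E m) (s + j) ≠ ⊥ := by
  induction m with
  | zero =>
    intro j hj
    have : j = 0 := by omega
    subst this
    exact hs
  | succ m ih =>
    intro j hj
    obtain ⟨i, j', hi, hj', rfl⟩ : ∃ i j', i ≤ 2 ∧ j' ≤ 2 * m ∧ j = j' + i := by
      by_cases h1 : j ≤ 2 * m
      · exact ⟨0, j, by omega, h1, rfl⟩
      · exact ⟨j - 2 * m, 2 * m, by omega, le_rfl, by omega⟩
    have h1 := T.deg_prod_ne_bot (ih j' hj') (hE i hi)
    rw [← add_assoc]
    exact h1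

theorem proj_ne_iff {X : V} {i : ℕ} : T.proj X i ≠ 0 ↔ T.deg X i ≠ ⊥ := by
  rw [not_iff_not]
  constructor
  · intro h
    rw [eq_bot_iff]
    intro a ha
    rw [← T.proj_same ha, h]
    exact zero_mem _
  · intro h
    ext a
    have h1 := T.proj_mem i a
    rw [h, Submodule.mem_bot] at h1
    rw [h1]
    rfl

theorem one_ne_zero_of_pointed {X : V} (h : T.Pointed X) : (1 : T.H X) ≠ 0 := by
  obtain ⟨-, p, -, hp⟩ := h
  intro h1
  apply hp
  rw [← mul_one p, h1, mul_zero, map_zero]

theorem deg_zero_ne_bot {X : V} (h : (1 : T.H X) ≠ 0) : T.deg X 0 ≠ ⊥ := by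
  intro h0
  apply h
  have h1 := T.one_deg (X := X)
  rwa [h0, Submodule.mem_bot] at h1

/-- the gap theorem -/
theorem gap [CharZero K] {E : V} (hE : T.dim E = 1) (hC : T.ConjC E)
    (h0 : ∀ j ≤ 2, T.proj E j ≠ 0) (hpt : ∀ X, T.Pointed X) :
    (∀ X, T.ConjC X) ↔ ∀ B : ℕ, ∃ n : ℕ, ∀ X, T.dim X = n →
      (∀ i ≤ 2 * n, T.deg X i ≠ ⊥) → B ≤ Module.finrank K (T.AlgComb X) := by
  have hEd : ∀ j ≤ 2, T.deg E j ≠ ⊥ := fun j hj => proj_ne_iff.1 (h0 j hj)
  constructor
  · intro h B
    refine ⟨B, fun X hX hd => ?_⟩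
    have h1 := le_finrank_algComb X (by rwa [hX]) (h X)
    omega
  · intro hB
    by_contra hno
    obtain ⟨g, hg1, hg2⟩ := grading hE hC h0 hpt
    have hg0 : g ≠ 0 := by
      intro h2
      apply hno
      intro X
      rw [T.conjC_iff]
      intro i
      have h3 := (hg1 0).2 (by rw [h2]) X i
      rw [← scal_single]
      refine h3.congr fun k _ => ?_
      simp [Nat.ModEq]
    obtain ⟨Z, A, hper⟩ := hg2 hg0
    obtain ⟨n, hn⟩ := hB (2 * A + g + 8 * T.dim Z + 10)
    -- the unit object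
    have hZp := hpt Z
    have h1Z := one_ne_zero_of_pointed hZp
    have htr1 : T.tr (𝟙_ V) 1 = 1 := by
      obtain ⟨-, p, -, hp⟩ := hZp
      exact T.tr_unit hp
    have hdim1 : T.dim (𝟙_ V) = 0 := by
      by_contra h2
      have h3 := T.tr_deg (T.one_deg (X := 𝟙_ V)) (by omega)
      rw [htr1] at h3
      exact one_ne_zero h3
    have h11 : (1 : T.H (𝟙_ V)) ≠ 0 := by
      intro h2
      rw [h2, map_zero] at htr1
      exact zero_ne_one htr1
    by_cases hnZ : 2 * T.dim Z ≤ n
    · have hdim : T.dim (ex Z E (n - T.dim Z)) = n := by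
        rw [T.dim_ex hE]
        omega
      have hdeg : ∀ i ≤ 2 * n, T.deg (ex Z E (n - T.dim Z)) i ≠ ⊥ := by
        intro i hi
        by_cases h2 : i ≤ 2 * (n - T.dim Z)
        · have h3 := deg_ex_ne_bot hEd (deg_zero_ne_bot h1Z) (n - T.dim Z) i h2
          rwa [zero_add] at h3
        · have h3 := deg_ex_ne_bot hEd (proj_ne_iff.1 hZp.top_ne) (n - T.dim Z)
            (i - 2 * T.dim Z) (by omega)
          rwa [show 2 * T.dim Z + (i - 2 * T.dim Z) = i by omega] at h3
      have h4 := hn _ hdim hdeg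
      have h5 := finrank_algComb_le (T := T) (ex Z E (n - T.dim Z)) (by rwa [hdim]) A g
        (fun c hc => hper (n - T.dim Z) c hc) (by omega)
      omega
    · have hdim : T.dim (ex (𝟙_ V) E n) = n := by
        rw [T.dim_ex hE, hdim1]
        omega
      have hdeg : ∀ i ≤ 2 * n, T.deg (ex (𝟙_ V) E n) i ≠ ⊥ := by
        intro i hi
        have h3 := deg_ex_ne_bot hEd (deg_zero_ne_bot h11) n i hi
        rwa [zero_add] at h3
      have h4 := hn _ hdim hdeg
      have h5 := finrank_algComb_le (T := T) (ex (𝟙_ V) E n) (by rwa [hdim])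
        (2 * n + 1) 1 (fun c _ k hk hk' => by omega) le_rfl
      omega

end WeilTheory

end Pool.KC
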