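import Pool.Agent.Work.MP_a60482_h14.Shift

/-!
# The grading theorem for Kuenneth projectors (helper14)
-/

open CategoryTheory MonoidalCategory CartesianMonoidalCategory
open scoped TensorProduct

universe u v w x

namespace Pool.KC

namespace Grading

/-- periods combine to their greatest common divisor on a smaller window -/
theorem bezout {g d : ℕ} (hg : 1 ≤ g) (hd : 1 ≤ d) :
    ∃ u v : ℕ, u * g = v * d + Nat.gcd g d := by
  by_cases h : Nat.gcd g d < d
  · obtain ⟨m, -, hm⟩ := Nat.exists_mul_mod_eq_gcd h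
    refine ⟨m, g * m / d, ?_⟩
    have h1 := Nat.div_add_mod (g * m) d
    rw [hm, mul_comm d] at h1
    rw [mul_comm m g, h1]
  · have h1 : Nat.gcd g d = d := le_antisymm (Nat.gcd_le_right _ hd) (not_lt.1 h)
    have h2 : d ∣ g := by
      rw [← h1]
      exact Nat.gcd_dvd_left g d
    obtain ⟨q, rfl⟩ := h2
    have hq : 1 ≤ q := by
      rcases Nat.eq_zero_or_pos q with h3 | h3
      · subst h3
        omega
      · exact h3
    obtain ⟨q, rfl⟩ : ∃ r, q = r + 1 := ⟨q - 1, by omega⟩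
    refine ⟨1, q, ?_⟩
    rw [h1]
    ring

theorem up {α : Type*} {c : ℕ → α} {g L U : ℕ}
    (h : ∀ k, L ≤ k → k + g ≤ U → c k = c (k + g)) (u k : ℕ) (hk : L ≤ k)
    (hU : k + u * g ≤ U) : c k = c (k + u * g) := by
  induction u with
  | zero => simp
  | succ u ih =>
    have h1 : k + (u + 1) * g = k + u * g + g := by ring
    rw [h1] at hU ⊢
    rw [ih (by omega)]
    exact h _ (by omega) hU

theorem period_gcd {α : Type*} {c : ℕ → α} {g d L U : ℕ} (u v : ℕ)
    (huv : u * g = v * d + Nat.gcd g d)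
    (h1 : ∀ k, L ≤ k → k + g ≤ U → c k = c (k + g))
    (h2 : ∀ k, L ≤ k → k + d ≤ U → c k = c (k + d)) (k : ℕ) (hk : L ≤ k)
    (hU : k + u * g ≤ U) : c k = c (k + Nat.gcd g d) := by
  rw [up h1 u k hk hU]
  have h3 := up h2 v (k + Nat.gcd g d) (by omega) (by omega)
  rw [h3]
  congr 1
  omega

end Grading

namespace Cohomology

variable {V : Type u} [Category.{v} V] [CartesianMonoidalCategory V] {K : Type x} [Field K]
variable (T : Cohomology.{u, v, w, x} V K)

theorem nondeg_left {X : V} {d : T.H X}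
    (hd : ∀ (l : ℕ) (c : T.H X), c ∈ T.deg X l → T.tr X (d * c) = 0) : d = 0 := by
  apply T.ext_proj
  intro m
  rw [map_zero]
  apply T.eq_zero_of_deg (T.proj_mem m d)
  intro l hl c hc
  have h3 : T.tr X (T.proj X m d * c) = 0 := by
    rw [T.tr_mul_proj d hc hl]
    exact hd l c hc
  rw [T.comm hc (T.proj_mem m d), T.neg_pow_smul, map_smul, h3, smul_zero]

/-- the exchange of factors -/
def braid (X Y : V) : X ⊗ Y ≅ Y ⊗ X where
  hom := lift (snd X Y) (fst X Y)
  inv := lift (snd Y X) (fst Y X)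
  hom_inv_id := by ext <;> simp
  inv_hom_id := by ext <;> simp

theorem deg_prod_ne_bot {X Y : V} {i j : ℕ} (hX : T.deg X i ≠ ⊥) (hY : T.deg Y j ≠ ⊥) :
    T.deg (X ⊗ Y) (i + j) ≠ ⊥ := by
  obtain ⟨a, ha, ha0⟩ := Submodule.exists_mem_ne_zero_of_ne_bot hX
  obtain ⟨b, hb, hb0⟩ := Submodule.exists_mem_ne_zero_of_ne_bot hY
  intro h
  have h1 : T.pull (fst X Y) a * T.pull (snd X Y) b ∈ T.deg (X ⊗ Y) (i + j) :=
    T.mul_deg (T.fst_deg ha) (T.snd_deg hb)
  rw [h, Submodule.mem_bot] at h1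
  apply ha0
  apply T.nondeg
  intro c
  have h2 := T.act_pure a b c
  rw [h1, T.act_zero, LinearMap.zero_apply] at h2
  exact (smul_eq_zero.1 h2.symm).resolve_right hb0

end Cohomology

namespace WeilTheory

variable {V : Type u} [Category.{v} V] [CartesianMonoidalCategory V] {K : Type x} [Field K]
variable {T : WeilTheory.{u, v, w, x} V K}

theorem Scal.iso {X Y : V} (e : X ≅ Y) (hd : T.dim X = T.dim Y) {c : ℕ → K}
    (h : T.Scal Y c) : T.Scal X c := by
  obtain ⟨_, ⟨z, hz, rfl⟩, hact⟩ := h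
  have hz' : T.pull (e ⊗ᵢ e).hom z ∈ T.C (X ⊗ X) (T.dim X) := by
    rw [hd]
    exact T.C_pull _ hz
  refine ⟨T.act (T.pull (e ⊗ᵢ e).hom z), T.act_mem_ops.2 hz', fun k a ha => ?_⟩
  rw [← sub_eq_zero]
  apply T.nondeg_left
  intro l b hb
  rw [sub_mul, map_sub, smul_mul_assoc, map_smul, T.tr_act, sub_eq_zero, smul_eq_mul]
  have hae : T.pull e.hom (T.pull e.inv a) = a := by
    rw [T.pull_comp', e.hom_inv_id, T.pull_id]
  have hbe : T.pull e.hom (T.pull e.inv b) = b := by
    rw [T.pull_comp', e.hom_inv_id, T.pull_id]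
  have h1 : T.pull (fst X X) a = T.pull (e ⊗ᵢ e).hom (T.pull (fst Y Y) (T.pull e.inv a)) := by
    rw [T.pull_comp', T.pull_comp']
    congr 2
    simp
  have h2 : T.pull (snd X X) b = T.pull (e ⊗ᵢ e).hom (T.pull (snd Y Y) (T.pull e.inv b)) := by
    rw [T.pull_comp', T.pull_comp']
    congr 2
    simp
  rw [h1, h2, ← map_mul, ← map_mul, T.tr_iso, ← T.tr_act, hact k _ (T.pull_deg _ ha),
    smul_mul_assoc, map_smul, smul_eq_mul]
  congr 1
  rw [← T.tr_iso e, map_mul, hae, hbe]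

variable (T) in
/-- connected, with a class of points -/
def Pointed (X : V) : Prop :=
  (∀ a ∈ T.deg X 0, ∃ c : K, a = c • (1 : T.H X)) ∧ ∃ p ∈ T.C X (T.dim X), T.tr X p ≠ 0

theorem Pointed.top_ne {X : V} (h : T.Pointed X) : T.proj X (2 * T.dim X) ≠ 0 := by
  obtain ⟨-, p, hp, hp0⟩ := h
  intro h0
  apply hp0
  rw [← T.proj_same (T.C_deg _ _ hp), h0]
  simp

theorem Pointed.top_mem {X : V} (h : T.Pointed X) : T.proj X (2 * T.dim X) ∈ T.ops X := by
  obtain ⟨h0, p, hp, htr⟩ := h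
  have hpd : p ∈ T.deg X (2 * T.dim X) := T.C_deg _ _ hp
  have h1 : T.act (T.pull (fst X X) 1 * T.pull (snd X X) p) ∈ T.ops X := by
    rw [T.act_mem_ops]
    have := T.C_mul (T.C_pull (fst X X) (T.C_one X)) (T.C_pull (snd X X) hp)
    rwa [zero_add] at this
  have h2 : T.act (T.pull (fst X X) 1 * T.pull (snd X X) p) =
      T.tr X p • T.proj X (2 * T.dim X) := by
    ext a
    rw [T.act_pure, LinearMap.smul_apply, mul_one]
    refine T.hind (P := fun a => T.tr X a • p = T.tr X p • T.proj X (2 * T.dim X) a)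
      (by simp) ?_ ?_ a
    · intro i a ha
      by_cases hi : i = 2 * T.dim X
      · subst hi
        rw [T.proj_same ha, ← sub_eq_zero]
        apply T.eq_zero_of_deg (sub_mem (Submodule.smul_mem _ _ hpd) (Submodule.smul_mem _ _ ha))
        intro j hj b hb
        have hj0 : j = 0 := by omega
        subst hj0
        obtain ⟨c, rfl⟩ := h0 b hb
        rw [smul_mul_assoc, one_mul, map_smul, map_sub, map_smul, map_smul]
        simp only [smul_eq_mul]
        ring
      · rw [T.tr_deg ha (by omega), T.proj_ne ha hi, zero_smul, smul_zero]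
    · intro a b h3 h4
      rw [map_add, add_smul, h3, h4, map_add, smul_add]
  rw [h2] at h1
  have h3 := Subalgebra.smul_mem (T.ops X) h1 (T.tr X p)⁻¹
  rwa [smul_smul, inv_mul_cancel₀ htr, one_smul] at h3

theorem Scal.left [CharZero K] {Z X : V} (hX : T.Pointed X) {c : ℕ → K}
    (h : T.Scal (Z ⊗ X) c) : T.Scal Z c := by
  have h1 := Scal.shift (X := Z) (P := X) (j := 0) (by omega) (by simpa using hX.top_mem)
    (by simpa using hX.top_ne) h
  simpa using h1

theorem Scal.right [CharZero K] {Z X : V} (hZ : T.Pointed Z) {c : ℕ → K}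
    (h : T.Scal (Z ⊗ X) c) : T.Scal X c := by
  refine Scal.left (Z := X) (X := Z) hZ (Scal.iso (Cohomology.braid X Z) ?_ h)
  rw [T.dim_prod, T.dim_prod, add_comm]

theorem Scal.shift_ex [CharZero K] {X E : V} (hE : T.dim E = 1) (hC : T.ConjC E)
    (h0 : ∀ j ≤ 2, T.proj E j ≠ 0) (m : ℕ) :
    ∀ {c : ℕ → K}, T.Scal (ex X E m) c → ∀ j ≤ 2 * m, T.Scal X fun k => c (k + j) := by
  induction m with
  | zero =>
    intro c h j hj
    have : j = 0 := by omega
    subst this
    exact h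
  | succ m ih =>
    intro c h j hj
    obtain ⟨i, j', hi, hj', rfl⟩ : ∃ i j', i ≤ 2 ∧ j' ≤ 2 * m ∧ j = j' + i := by
      by_cases h1 : j ≤ 2 * m
      · exact ⟨0, j, by omega, h1, rfl⟩
      · exact ⟨j - 2 * m, 2 * m, by omega, le_rfl, by omega⟩
    have h1 : T.Scal (ex X E m ⊗ E) c := h
    have h2 := Scal.shift (X := ex X E m) (P := E) (j := i) (by omega)
      (T.conjC_iff.1 hC _) (h0 _ (by omega)) h1
    have h3 := ih h2 j' hj'
    refine h3.congr fun k _ => ?_
    rw [add_assoc]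

variable (T) in
/-- the degrees `k` and `l` of `X` cannot be separated by algebraic projectors -/
def Rel (X : V) (k l : ℕ) : Prop := ∀ c : ℕ → K, T.Scal X c → c k = c l

theorem Rel.refl (X : V) (k : ℕ) : T.Rel X k k := fun _ _ => rfl

theorem Rel.symm {X : V} {k l : ℕ} (h : T.Rel X k l) : T.Rel X l k := fun c hc => (h c hc).symm

theorem Rel.trans {X : V} {k l m : ℕ} (h : T.Rel X k l) (h' : T.Rel X l m) : T.Rel X k m :=
  fun c hc => (h c hc).trans (h' c hc)

theorem exists_indicator (X : V) (k : ℕ) : ∃ c : ℕ → K, T.Scal X c ∧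
    ∀ l ≤ 2 * T.dim X, (T.Rel X k l → c l = 1) ∧ (¬ T.Rel X k l → c l = 0) := by
  classical
  have h1 : ∀ l, ∃ d : ℕ → K, T.Scal X d ∧ (¬ T.Rel X k l → d k = 1 ∧ d l = 0) := by
    intro l
    by_cases h : T.Rel X k l
    · exact ⟨fun _ => 1, Scal.const X 1, fun h' => absurd h h'⟩
    · have h' := h
      unfold Rel at h'
      push Not at h'
      obtain ⟨c, hc, hne⟩ := h'
      have h2 : c k - c l ≠ 0 := sub_ne_zero.2 hne
      refine ⟨(c k - c l)⁻¹ • (c - fun _ => c l),
        (hc.sub (Scal.const X (c l))).smul _, fun _ => ⟨?_, ?_⟩⟩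
      · simp only [Pi.smul_apply, Pi.sub_apply, smul_eq_mul]
        exact inv_mul_cancel₀ h2
      · simp
  choose d hd hd' using h1
  refine ⟨∏ l ∈ (Finset.range (2 * T.dim X + 1)).filter fun l => ¬ T.Rel X k l, d l,
    Scal.prod _ fun l _ => hd l, fun l hl => ⟨fun hr => ?_, fun hr => ?_⟩⟩
  · rw [Finset.prod_apply]
    refine Finset.prod_eq_one fun j hj => ?_
    rw [← hr _ (hd j)]
    exact (hd' j (Finset.mem_filter.1 hj).2).1
  · rw [Finset.prod_apply]
    refine Finset.prod_eq_zero (i := l) ?_ (hd' l hr).2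
    exact Finset.mem_filter.2 ⟨Finset.mem_range.2 (by omega), hr⟩

theorem scal_of_rel [CharZero K] {X : V} {c : ℕ → K}
    (h : ∀ k l, k ≤ 2 * T.dim X → l ≤ 2 * T.dim X → T.Rel X k l → c k = c l) :
    T.Scal X c := by
  classical
  choose e he he' using exists_indicator (T := T) X
  set R := Finset.range (2 * T.dim X + 1) with hR
  let N : ℕ → ℕ := fun k => (R.filter fun l => T.Rel X k l).card
  have hN : ∀ k l, T.Rel X k l → N k = N l := by
    intro k l hkl
    refine congrArg Finset.card (Finset.filter_congr fun j _ => ⟨fun hj => ?_, fun hj => ?_⟩)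
    · exact hkl.symm.trans hj
    · exact hkl.trans hj
  have key : T.Scal X (∑ k ∈ R, (c k / (N k : K)) • e k) :=
    Scal.sum _ fun k _ => (he k).smul _
  refine key.congr fun l hl => ?_
  have hl2 : l ≤ 2 * T.dim X := by
    by_contra hlt
    apply hl
    rw [eq_bot_iff]
    intro a ha
    rw [T.deg_eq_zero ha (by omega)]
    exact zero_mem _
  have hlR : l ∈ R := Finset.mem_range.2 (by omega)
  rw [Finset.sum_apply]
  have h1 : ∀ k ∈ R, ((c k / (N k : K)) • e k) l =
      if T.Rel X l k then c l / (N l : K) else 0 := by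
    intro k hk
    have hk2 : k ≤ 2 * T.dim X := by
      have := Finset.mem_range.1 hk
      omega
    rw [Pi.smul_apply, smul_eq_mul]
    split_ifs with hr
    · rw [(he' k l hl2).1 hr.symm, mul_one, h k l hk2 hl2 hr.symm, hN k l hr.symm]
    · rw [(he' k l hl2).2 fun h' => hr h'.symm, mul_zero]
  rw [Finset.sum_congr rfl h1, ← Finset.sum_filter, Finset.sum_const, nsmul_eq_mul]
  have h2 : ((R.filter fun k => T.Rel X l k).card : K) ≠ 0 := by
    rw [Nat.cast_ne_zero]
    exact (Finset.card_pos.2 ⟨l, Finset.mem_filter.2 ⟨hlR, Rel.refl X l⟩⟩).ne'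
  exact mul_div_cancel₀ (c l) h2

theorem exists_rel_of_not_conjC [CharZero K] {X : V} (h : ¬ T.ConjC X) :
    ∃ a b, a < b ∧ b ≤ 2 * T.dim X ∧ T.Rel X a b := by
  by_contra hno
  push Not at hno
  apply h
  rw [conjC_iff_scal]
  intro c
  refine scal_of_rel fun k l hk hl hr => ?_
  rcases lt_trichotomy k l with h1 | h1 | h1
  · exact absurd hr (hno k l h1 hl)
  · rw [h1]
  · exact absurd hr.symm (hno l k h1 hk)

variable (T) in
/-- eventual period `g` -/
def Per (g : ℕ) : Prop :=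
  1 ≤ g ∧ ∃ (Z : V) (A : ℕ), ∀ (m : ℕ) (c : ℕ → K),
    (∀ j ≤ 2 * m, T.Scal Z fun k => c (k + j)) →
      ∀ k, A ≤ k → k + g + A ≤ 2 * T.dim Z + 2 * m → c k = c (k + g)

theorem period_of_rel {X : V} {a b : ℕ} (hab : a < b) (hb : b ≤ 2 * T.dim X)
    (hr : T.Rel X a b) (m : ℕ) (c : ℕ → K) (hc : ∀ j ≤ 2 * m, T.Scal X fun k => c (k + j))
    (k : ℕ) (hk : 2 * T.dim X ≤ k) (hk' : k + (b - a) ≤ 2 * m) : c k = c (k + (b - a)) := by
  have h1 := hr _ (hc (k - a) (by omega))
  have e1 : a + (k - a) = k := by omega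
  have e2 : b + (k - a) = k + (b - a) := by omega
  rwa [e1, e2] at h1

theorem per_of_rel {X : V} {a b : ℕ} (hab : a < b) (hb : b ≤ 2 * T.dim X)
    (hr : T.Rel X a b) : T.Per (b - a) :=
  ⟨by omega, X, 2 * T.dim X, fun m c hc k hk hk' =>
    period_of_rel hab hb hr m c hc k hk (by omega)⟩

theorem per_gcd [CharZero K] (hpt : ∀ X, T.Pointed X) {g : ℕ} (hg : T.Per g) {X : V}
    {a b : ℕ} (hab : a < b) (hb : b ≤ 2 * T.dim X) (hr : T.Rel X a b) :
    T.Per (Nat.gcd g (b - a)) := by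
  obtain ⟨hg1, Z, A, hZ⟩ := hg
  obtain ⟨u, v, huv⟩ := Grading.bezout hg1 (show 1 ≤ b - a by omega)
  refine ⟨Nat.gcd_pos_of_pos_left _ hg1, Z ⊗ X, A + 2 * T.dim X + 2 * T.dim Z + u * g,
    fun m c hc k hk hk' => ?_⟩
  have h1 : ∀ j ≤ 2 * m, T.Scal Z fun k => c (k + j) := fun j hj => (hc j hj).left (hpt X)
  have h2 : ∀ j ≤ 2 * m, T.Scal X fun k => c (k + j) := fun j hj => (hc j hj).right (hpt Z)
  rw [T.dim_prod] at hk'
  refine Grading.period_gcd (L := A + 2 * T.dim X) (U := 2 * m - A) u v huv ?_ ?_ k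
    (by omega) (by omega)
  · intro k hk hk'
    exact hZ m c h1 k (by omega) (by omega)
  · intro k hk hk'
    exact period_of_rel hab hb hr m c h2 k (by omega) (by omega)

/-- the grading theorem -/
theorem grading [CharZero K] {E : V} (hE : T.dim E = 1) (hC : T.ConjC E)
    (h0 : ∀ j ≤ 2, T.proj E j ≠ 0) (hpt : ∀ X, T.Pointed X) :
    ∃ g : ℕ,
      (∀ g' : ℕ, (∀ (X : V) (r : ℕ), T.Scal X fun k => if k ≡ r [MOD g'] then 1 else 0) ↔
        g' ∣ g) ∧
      (g ≠ 0 → ∃ (Z : V) (A : ℕ), ∀ (m : ℕ) (c : ℕ → K), T.Scal (ex Z E m) c →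
        ∀ k, A ≤ k → k + g + A ≤ 2 * T.dim (ex Z E m) → c k = c (k + g)) := by
  classical
  by_cases hall : ∀ X, T.ConjC X
  · exact ⟨0, fun g' => ⟨fun _ => dvd_zero _, fun _ X r => conjC_iff_scal.1 (hall X) _⟩,
      fun h => absurd rfl h⟩
  · push Not at hall
    obtain ⟨X, hX⟩ := hall
    obtain ⟨a, b, hab, hb, hr⟩ := exists_rel_of_not_conjC hX
    have hex : ∃ g, T.Per g := ⟨_, per_of_rel hab hb hr⟩
    have hg := Nat.find_spec hex
    have hmin : ∀ g', T.Per g' → Nat.find hex ≤ g' := fun g' h => Nat.find_min' hex h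
    set g := Nat.find hex with hgdef
    -- all merged degrees differ by multiples of `g`
    have hdvd : ∀ (X : V) (a b : ℕ), a < b → b ≤ 2 * T.dim X → T.Rel X a b → g ∣ b - a := by
      intro X a b hab hb hr
      have h1 := per_gcd hpt hg hab hb hr
      have h2 := hmin _ h1
      have h3 : Nat.gcd g (b - a) ∣ g := Nat.gcd_dvd_left _ _
      have h4 : Nat.gcd g (b - a) = g := le_antisymm (Nat.le_of_dvd hg.1 h3) h2
      rw [← h4]
      exact Nat.gcd_dvd_right _ _
    have hmod : ∀ (X : V) (a b : ℕ), a ≤ 2 * T.dim X → b ≤ 2 * T.dim X → T.Rel X a b →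
        a ≡ b [MOD g] := by
      intro X a b ha hb hr
      rcases lt_trichotomy a b with h | h | h
      · exact (Nat.modEq_iff_dvd' h.le).2 (hdvd X a b h hb hr)
      · rw [h]
      · exact ((Nat.modEq_iff_dvd' h.le).2 (hdvd X b a h ha hr.symm)).symm
    obtain ⟨hg1, Z, A, hZ⟩ := hg
    have hper : ∀ (m : ℕ) (c : ℕ → K), T.Scal (ex Z E m) c →
        ∀ k, A ≤ k → k + g + A ≤ 2 * T.dim (ex Z E m) → c k = c (k + g) := by
      intro m c hc k hk hk'
      rw [T.dim_ex hE] at hk'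
      exact hZ m c (fun j hj => Scal.shift_ex hE hC h0 m hc j hj) k hk (by omega)
    refine ⟨g, fun g' => ⟨fun h => ?_, fun h X r => ?_⟩, fun _ => ⟨Z, A, hper⟩⟩
    · have h1 := hper (A + g) _ (h (ex Z E (A + g)) A) A le_rfl (by
        rw [T.dim_ex hE]
        omega)
      rw [if_pos (Nat.ModEq.refl A)] at h1
      by_cases h2 : A + g ≡ A [MOD g']
      · have h3 := (Nat.modEq_iff_dvd' (show A ≤ A + g by omega)).1 h2.symm
        rwa [Nat.add_sub_cancel_left] at h3
      · rw [if_neg h2] at h1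
        exact absurd h1 one_ne_zero
    · refine scal_of_rel fun k l hk hl hr => ?_
      have h1 : k ≡ l [MOD g'] := (hmod X k l hk hl hr).of_dvd h
      by_cases h2 : k ≡ r [MOD g']
      · rw [if_pos h2, if_pos (h1.symm.trans h2)]
      · rw [if_neg h2, if_neg fun h3 => h2 (h1.trans h3)]

end WeilTheory

end Pool.KC
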