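import Pool.Agent.Work.MP_a60482_h14.Gap

/-!
# The grading theorem, in terms of `WeilData` (helper14)
-/

open CategoryTheory MonoidalCategory CartesianMonoidalCategory

universe u v w x

namespace Pool.KC

namespace WeilData

variable {V : Type u} [Category.{v} V] [CartesianMonoidalCategory V] {K : Type x} [Field K]

/-- The projector onto the sum of the `H^i(X)` with `i ≡ r` modulo `g` is algebraic: for the
Kuenneth components `p i` of the diagonal, the sum of the `p i` with `i ≡ r` modulo `g` is an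
algebraic class. -/
def ModAlgebraic (D : WeilData.{u, v, w, x} V K) (g r : ℕ) (X : V) : Prop :=
  ∃ p : ℕ → D.H (X ⊗ X), D.IsKunneth X p ∧
    ∑ i ∈ (Finset.range (2 * D.dim X + 1)).filter (fun i => i ≡ r [MOD g]), p i ∈
      D.C (X ⊗ X) (D.dim X)

/-- The algebraic classes of codimension `dim X` on `X × X` in the span of the Kuenneth
components of the diagonal. -/
def AlgComb (D : WeilData.{u, v, w, x} V K) (X : V) : Submodule K (D.H (X ⊗ X)) :=
  Submodule.span K {z | ∃ p : ℕ → D.H (X ⊗ X), D.IsKunneth X p ∧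
    ∃ i ≤ 2 * D.dim X, p i = z} ⊓ D.C (X ⊗ X) (D.dim X)

variable {D : WeilData.{u, v, w, x} V K}

theorem scal_iff_comb (h : D.IsWeil) {X : V} {p : ℕ → D.H (X ⊗ X)} (hp : D.IsKunneth X p)
    (c : ℕ → K) : (toWeil h).Scal X c ↔
      ∑ i ∈ Finset.range (2 * D.dim X + 1), c i • p i ∈ D.C (X ⊗ X) (D.dim X) := by
  rw [WeilTheory.scal_iff]
  have h1 : ∑ i ∈ Finset.range (2 * D.dim X + 1), c i • p i =
      ∑ i ∈ Finset.range (2 * D.dim X + 1), c i • (toWeil h).kunnethComponent X i :=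
    Finset.sum_congr rfl fun i hi => by
      rw [hp.eq h (by have := Finset.mem_range.1 hi; omega)]
  have h2 : ∀ (s : Finset ℕ), (∀ i ∈ s, i ≤ 2 * D.dim X) →
      (toWeil h).act (∑ i ∈ s, c i • (toWeil h).kunnethComponent X i) =
        ∑ i ∈ s, c i • (toWeil h).proj X i := by
    intro s
    classical
    induction s using Finset.induction_on with
    | empty => intro _; simp [Cohomology.act_zero]
    | insert i s hi ih =>
      intro hs
      rw [Finset.sum_insert hi, Finset.sum_insert hi, Cohomology.act_add, Cohomology.act_smul,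
        ih fun j hj => hs j (Finset.mem_insert_of_mem hj),
        (toWeil h).act_kunneth (hs i (Finset.mem_insert_self _ _))]
  have h3 := h2 (Finset.range (2 * D.dim X + 1)) fun i hi => by
    have := Finset.mem_range.1 hi
    omega
  rw [h1]
  exact (iff_of_eq (congrArg (fun f => f ∈ (toWeil h).ops X) h3.symm)).trans
    (toWeil h).act_mem_ops

theorem modAlgebraic_iff (h : D.IsWeil) (g r : ℕ) (X : V) :
    D.ModAlgebraic g r X ↔
      (toWeil h).Scal X fun k => if k ≡ r [MOD g] then 1 else 0 := by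
  have key : ∀ p : ℕ → D.H (X ⊗ X),
      ∑ i ∈ (Finset.range (2 * D.dim X + 1)).filter (fun i => i ≡ r [MOD g]), p i =
      ∑ i ∈ Finset.range (2 * D.dim X + 1), (if i ≡ r [MOD g] then (1 : K) else 0) • p i := by
    intro p
    rw [Finset.sum_filter]
    refine Finset.sum_congr rfl fun i _ => ?_
    split_ifs
    · rw [one_smul]
    · rw [zero_smul]
  constructor
  · rintro ⟨p, hp, hs⟩
    rw [scal_iff_comb h hp]
    rwa [key] at hs
  · intro hs
    have hp := isKunneth h X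
    refine ⟨_, hp, ?_⟩
    rw [key]
    exact (scal_iff_comb h hp _).1 hs

theorem algComb_eq (h : D.IsWeil) (X : V) : D.AlgComb X = (toWeil h).AlgComb X := by
  have h1 : {z | ∃ p : ℕ → D.H (X ⊗ X), D.IsKunneth X p ∧ ∃ i ≤ 2 * D.dim X, p i = z} =
      {z : D.H (X ⊗ X) | ∃ i ≤ 2 * D.dim X, (toWeil h).kunnethComponent X i = z} := by
    ext z
    constructor
    · rintro ⟨p, hp, i, hi, rfl⟩
      exact ⟨i, hi, (hp.eq h hi).symm⟩
    · rintro ⟨i, hi, rfl⟩
      exact ⟨_, isKunneth h X, i, hi, rfl⟩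
  unfold AlgComb
  rw [h1]
  rfl

theorem grading_main [CharZero K] (h : D.IsWeil)
    (hpt : ∀ X : V, (∀ a ∈ D.deg X 0, ∃ c : K, a = c • (1 : D.H X)) ∧
      ∃ p ∈ D.C X (D.dim X), D.int p ≠ 0)
    (E : V) (hE : D.dim E = 1) (hE1 : D.deg E 1 ≠ ⊥) :
    (∃ g : ℕ,
      (∀ g' : ℕ, (∀ (X : V) (r : ℕ), D.ModAlgebraic g' r X) ↔ g' ∣ g) ∧
      (g = 0 ↔ ∀ X : V, D.ConjC X) ∧
      (g ≠ 0 → ∃ (Z : V) (A : ℕ), ∀ (m : ℕ) (p : ℕ → D.H (ex Z E m ⊗ ex Z E m)) (c : ℕ → K),
        D.IsKunneth (ex Z E m) p →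
        ∑ i ∈ Finset.range (2 * D.dim (ex Z E m) + 1), c i • p i ∈
          D.C (ex Z E m ⊗ ex Z E m) (D.dim (ex Z E m)) →
        ∀ k, A ≤ k → k + g + A ≤ 2 * D.dim (ex Z E m) → c k = c (k + g))) ∧
    ((∀ X : V, D.ConjC X) ↔
      ∀ N : ℕ, ∃ g' ≥ N, ∀ (X : V) (r : ℕ), D.ModAlgebraic g' r X) ∧
    ((∀ X : V, D.ConjC X) ↔ ∀ B : ℕ, ∃ n : ℕ, ∀ X : V, D.dim X = n →
      (∀ i ≤ 2 * n, D.deg X i ≠ ⊥) → B ≤ Module.finrank K (D.AlgComb X)) := by
  set T := toWeil h with hT
  have hpt' : ∀ X, T.Pointed X := hpt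
  have hC : T.ConjC E := T.conjC_curve hE (hpt E).1 (by
    obtain ⟨p, hp, hp0⟩ := (hpt E).2
    rw [hE] at hp
    exact ⟨p, hp, hp0⟩)
  have hd : ∀ j ≤ 2, T.proj E j ≠ 0 := by
    intro j hj
    interval_cases j
    · exact WeilTheory.proj_ne_iff.2
        (WeilTheory.deg_zero_ne_bot (WeilTheory.one_ne_zero_of_pointed (hpt' E)))
    · exact WeilTheory.proj_ne_iff.2 hE1
    · have := (hpt' E).top_ne
      have hE' : T.dim E = 1 := hE
      rwa [hE'] at this
  have hall : (∀ X : V, D.ConjC X) ↔ ∀ X, T.ConjC X := forall_congr' fun X => conjC_iff' h X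
  obtain ⟨g, hg1, hg2⟩ := WeilTheory.grading (T := T) hE hC hd hpt'
  have hmod : ∀ g' : ℕ, (∀ (X : V) (r : ℕ), D.ModAlgebraic g' r X) ↔ g' ∣ g := by
    intro g'
    rw [← hg1 g']
    exact forall_congr' fun X => forall_congr' fun r => modAlgebraic_iff h g' r X
  have hzero : g = 0 ↔ ∀ X : V, D.ConjC X := by
    rw [hall]
    constructor
    · intro h2 X
      rw [T.conjC_iff]
      intro i
      have h3 := (hg1 0).2 (by rw [h2]) X i
      rw [← WeilTheory.scal_single]
      refine h3.congr fun k _ => ?_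
      simp [Nat.ModEq]
    · intro h2
      have h3 := (hg1 0).1 fun X r => WeilTheory.conjC_iff_scal.1 (h2 X) _
      exact Nat.eq_zero_of_zero_dvd h3
  refine ⟨⟨g, hmod, hzero, fun hg0 => ?_⟩, ?_, ?_⟩
  · obtain ⟨Z, A, hper⟩ := hg2 hg0
    exact ⟨Z, A, fun m p c hp hc => hper m c ((scal_iff_comb h hp c).2 hc)⟩
  · constructor
    · intro h2 N
      have h3 := hzero.2 h2
      exact ⟨N, le_rfl, (hmod N).2 (by rw [h3]; exact dvd_zero _)⟩
    · intro h2
      obtain ⟨g', hg', h3⟩ := h2 (g + 1)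
      rw [← hzero]
      by_contra h4
      have h5 := Nat.le_of_dvd (Nat.pos_of_ne_zero h4) ((hmod g').1 h3)
      omega
  · rw [hall]
    refine (WeilTheory.gap (T := T) hE hC hd hpt').trans ?_
    refine forall_congr' fun B => exists_congr fun n => forall_congr' fun X =>
      forall_congr' fun _ => forall_congr' fun _ => ?_
    rw [algComb_eq h X]

end WeilData

end Pool.KC
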