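import Pool.Agent.Work.MP_a60482_kc.Final

/-!
# Scalar combinations of the Kuenneth projectors (helper14)
-/

open CategoryTheory MonoidalCategory CartesianMonoidalCategory
open scoped TensorProduct

universe u v w x

namespace Pool.KC

namespace Cohomology

variable {V : Type u} [Category.{v} V] [CartesianMonoidalCategory V] {K : Type x} [Field K]
variable (T : Cohomology.{u, v, w, x} V K)

/-- Partial trace: if `z` acts on `H^k(X × P)` as the scalar `c k`, and `b` is a
class in `H^j(P) ⊗ H^{2 dim P - j}(P)`, then contracting `z` with `b` gives a multiple of the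
operator on `H(X)` with scalars `c (k + j)`. -/
theorem act_contract' {X P : V} {j : ℕ} (hj : j ≤ 2 * T.dim P)
    {z : T.H ((X ⊗ P) ⊗ (X ⊗ P))} (hz : z ∈ T.deg _ (2 * T.dim (X ⊗ P))) (s : ℕ → K)
    (hact : ∀ (k : ℕ) (a : T.H (X ⊗ P)), a ∈ T.deg (X ⊗ P) k → T.act z a = s k • a)
    (b : T.H (P ⊗ P)) : ∀ (k : ℕ) (a : T.H X), a ∈ T.deg X k →
    T.act (T.push (P ⊗ P) (X ⊗ X) (T.pull (mix P X).hom z *
      T.pull (fst (P ⊗ P) (X ⊗ X)) (T.component P P j (2 * T.dim P - j) b))) a =
    (T.tr P (T.pull (lift (𝟙 P) (𝟙 P)) (T.component P P j (2 * T.dim P - j) b)) * s (k + j)) •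
      a := by
  refine T.kind (P := fun b => ∀ (k : ℕ) (a : T.H X), a ∈ T.deg X k →
    T.act (T.push (P ⊗ P) (X ⊗ X) (T.pull (mix P X).hom z *
      T.pull (fst (P ⊗ P) (X ⊗ X)) (T.component P P j (2 * T.dim P - j) b))) a =
    (T.tr P (T.pull (lift (𝟙 P) (𝟙 P)) (T.component P P j (2 * T.dim P - j) b)) * s (k + j)) •
      a) (by intro k a _; simp [act_zero]) ?_ ?_ b
  · intro y0 q0
    rw [T.component_pure]
    have hy := T.proj_mem (X := P) j y0
    have hq := T.proj_mem (X := P) (2 * T.dim P - j) q0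
    generalize T.proj P j y0 = y at hy
    generalize T.proj P (2 * T.dim P - j) q0 = q at hq
    have hzc : ∀ t, T.pull (mix P X).hom z * t = t * T.pull (mix P X).hom z := fun t =>
      T.even_comm (T.pull_deg _ hz) t
    have hzc' : ∀ t, z * t = t * z := fun t => T.even_comm hz t
    -- value on a homogeneous class, paired with a homogeneous class
    have key : ∀ (k l : ℕ) (a c : T.H X), a ∈ T.deg X k → c ∈ T.deg X l →
        T.tr X (T.act (T.push (P ⊗ P) (X ⊗ X) (T.pull (mix P X).hom z *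
          T.pull (fst (P ⊗ P) (X ⊗ X)) (T.pull (fst P P) y * T.pull (snd P P) q))) a * c) =
        (-1) ^ ((2 * T.dim P - j) * l) *
          T.tr (X ⊗ P) ((s (k + j) • (T.pull (fst X P) a * T.pull (snd X P) y)) *
            (T.pull (fst X P) c * T.pull (snd X P) q)) := by
      intro k l a c ha hc
      have hay : T.pull (fst X P) a * T.pull (snd X P) y ∈ T.deg (X ⊗ P) (k + j) :=
        T.mul_deg (T.fst_deg ha) (T.snd_deg hy)
      rw [T.tr_act, ← T.push_snd_mul, ← T.push_mul_snd, T.tr_push, ← hact _ _ hay, T.tr_act,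
        ← T.tr_iso (mix P X)]
      simp only [map_mul, T.pull_comp']
      have e1 : (mix P X).hom ≫ fst (X ⊗ P) (X ⊗ P) ≫ fst X P =
          snd (P ⊗ P) (X ⊗ X) ≫ fst X X := by simp [mix]
      have e2 : (mix P X).hom ≫ fst (X ⊗ P) (X ⊗ P) ≫ snd X P =
          fst (P ⊗ P) (X ⊗ X) ≫ fst P P := by simp [mix]
      have e3 : (mix P X).hom ≫ snd (X ⊗ P) (X ⊗ P) ≫ fst X P =
          snd (P ⊗ P) (X ⊗ X) ≫ snd X X := by simp [mix]
      have e4 : (mix P X).hom ≫ snd (X ⊗ P) (X ⊗ P) ≫ snd X P =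
          fst (P ⊗ P) (X ⊗ X) ≫ snd P P := by simp [mix]
      rw [e1, e2, e3, e4]
      have h1 := T.comm (T.pull_deg (fst (P ⊗ P) (X ⊗ X) ≫ snd P P) hq)
        (T.pull_deg (snd (P ⊗ P) (X ⊗ X) ≫ snd X X) hc)
      rw [T.neg_pow_smul] at h1
      have h2 : T.pull (snd (P ⊗ P) (X ⊗ X) ≫ fst X X) a * (T.pull (mix P X).hom z *
          (T.pull (fst (P ⊗ P) (X ⊗ X) ≫ fst P P) y *
            T.pull (fst (P ⊗ P) (X ⊗ X) ≫ snd P P) q)) *
          T.pull (snd (P ⊗ P) (X ⊗ X) ≫ snd X X) c =
          (-1 : K) ^ ((2 * T.dim P - j) * l) •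
          (T.pull (snd (P ⊗ P) (X ⊗ X) ≫ fst X X) a *
            T.pull (fst (P ⊗ P) (X ⊗ X) ≫ fst P P) y * T.pull (mix P X).hom z *
            (T.pull (snd (P ⊗ P) (X ⊗ X) ≫ snd X X) c *
              T.pull (fst (P ⊗ P) (X ⊗ X) ≫ snd P P) q)) := by
        exact mix_aux _ _ _ _ _ _ hzc h1
      rw [h2, map_smul, smul_eq_mul]
    intro k a ha
    rw [← sub_eq_zero]
    -- use the duality
    have hdual : ∀ d : T.H X, (∀ (l : ℕ) (c : T.H X), c ∈ T.deg X l → T.tr X (d * c) = 0) →
        d = 0 := by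
      intro d hd
      apply T.ext_proj
      intro m
      rw [map_zero]
      apply T.eq_zero_of_deg (T.proj_mem m d)
      intro l hl c hc
      have h3 : T.tr X (T.proj X m d * c) = 0 := by
        rw [T.tr_mul_proj d hc hl]
        exact hd l c hc
      rw [T.comm hc (T.proj_mem m d), T.neg_pow_smul, map_smul, h3, smul_zero]
    apply hdual
    intro l c hc
    rw [sub_mul, map_sub, key k l a c ha hc, smul_mul_assoc, map_smul, smul_eq_mul,
      map_mul (T.pull (lift (𝟙 P) (𝟙 P))),
      T.pull_comp', T.pull_comp', lift_fst, lift_snd, T.pull_id, T.pull_id, sub_eq_zero,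
      smul_mul_assoc, map_smul, smul_eq_mul]
    have hay : T.pull (fst X P) a * T.pull (snd X P) y ∈ T.deg (X ⊗ P) (k + j) :=
      T.mul_deg (T.fst_deg ha) (T.snd_deg hy)
    by_cases hl : k + l = 2 * T.dim X
    · have h3 := T.comm (T.snd_deg (X := X) hy) (T.fst_deg (Y := P) hc)
      rw [T.neg_pow_smul] at h3
      have h4 : T.pull (fst X P) a * T.pull (snd X P) y *
          (T.pull (fst X P) c * T.pull (snd X P) q) =
          (-1 : K) ^ (j * l) • (T.pull (fst X P) (a * c) * T.pull (snd X P) (y * q)) := by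
        rw [mul_assoc, ← mul_assoc (T.pull (snd X P) y), h3, map_mul, map_mul]
        simp only [smul_mul_assoc, mul_smul_comm, mul_assoc]
      rw [h4, map_smul, T.tr_prod, smul_eq_mul]
      have hl' : l = 2 * T.dim X - k := by omega
      rw [hl']
      have := pow_sign_aux (K := K) (i := k) (n := T.dim X) hj
      linear_combination (T.tr X (a * c) * T.tr P (y * q) * s (k + j)) * this
    · rw [T.tr_mul_ne ha hc hl, mul_zero]
      have : T.pull (fst X P) a * T.pull (snd X P) y *
          (T.pull (fst X P) c * T.pull (snd X P) q) ∈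
          T.deg (X ⊗ P) (k + j + (l + (2 * T.dim P - j))) :=
        T.mul_deg hay (T.mul_deg (T.fst_deg hc) (T.snd_deg hq))
      rw [T.tr_deg this (by rw [T.dim_prod]; omega), mul_zero, mul_zero]
  · intro b c h1 h2 k a ha
    simp only [map_add, mul_add, T.act_add, LinearMap.add_apply, h1 k a ha, h2 k a ha, add_mul,
      add_smul]

end Cohomology

namespace WeilTheory

variable {V : Type u} [Category.{v} V] [CartesianMonoidalCategory V] {K : Type x} [Field K]
variable (T : WeilTheory.{u, v, w, x} V K)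

/-- the operator which is the scalar `c k` on `H^k(X)` is algebraic -/
def Scal (X : V) (c : ℕ → K) : Prop :=
  ∃ f ∈ T.ops X, ∀ (k : ℕ) (a : T.H X), a ∈ T.deg X k → f a = c k • a

variable {T}

theorem Scal.const (X : V) (c : K) : T.Scal X fun _ => c :=
  ⟨algebraMap K _ c, Subalgebra.algebraMap_mem _ _, fun _ _ _ => by
    rw [Module.algebraMap_end_apply]⟩

theorem Scal.add {X : V} {c d : ℕ → K} (hc : T.Scal X c) (hd : T.Scal X d) :
    T.Scal X (c + d) := by
  obtain ⟨f, hf, h1⟩ := hc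
  obtain ⟨g, hg, h2⟩ := hd
  refine ⟨f + g, add_mem hf hg, fun k a ha => ?_⟩
  rw [LinearMap.add_apply, h1 k a ha, h2 k a ha, Pi.add_apply, add_smul]

theorem Scal.mul {X : V} {c d : ℕ → K} (hc : T.Scal X c) (hd : T.Scal X d) :
    T.Scal X (c * d) := by
  obtain ⟨f, hf, h1⟩ := hc
  obtain ⟨g, hg, h2⟩ := hd
  refine ⟨f * g, mul_mem hf hg, fun k a ha => ?_⟩
  rw [Module.End.mul_apply, h2 k a ha, map_smul, h1 k a ha, Pi.mul_apply, smul_smul, mul_comm]

theorem Scal.smul {X : V} {c : ℕ → K} (r : K) (hc : T.Scal X c) : T.Scal X (r • c) := by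
  have h := (Scal.const (T := T) X r).mul hc
  exact h

theorem Scal.sub {X : V} {c d : ℕ → K} (hc : T.Scal X c) (hd : T.Scal X d) :
    T.Scal X (c - d) := by
  have h := hc.add (hd.smul (-1))
  have h1 : c + (-1 : K) • d = c - d := by
    funext k
    simp [sub_eq_add_neg]
  rwa [h1] at h

theorem Scal.prod {X : V} {ι : Type*} (s : Finset ι) {c : ι → ℕ → K}
    (hc : ∀ i ∈ s, T.Scal X (c i)) : T.Scal X (∏ i ∈ s, c i) := by
  classical
  induction s using Finset.induction_on with
  | empty => exact Scal.const X 1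
  | insert i s hi ih =>
    rw [Finset.prod_insert hi]
    exact (hc i (Finset.mem_insert_self _ _)).mul
      (ih fun j hj => hc j (Finset.mem_insert_of_mem hj))

theorem Scal.sum {X : V} {ι : Type*} (s : Finset ι) {c : ι → ℕ → K}
    (hc : ∀ i ∈ s, T.Scal X (c i)) : T.Scal X (∑ i ∈ s, c i) := by
  classical
  induction s using Finset.induction_on with
  | empty => exact Scal.const X 0
  | insert i s hi ih =>
    rw [Finset.sum_insert hi]
    exact (hc i (Finset.mem_insert_self _ _)).add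
      (ih fun j hj => hc j (Finset.mem_insert_of_mem hj))

theorem Scal.congr {X : V} {c d : ℕ → K} (hc : T.Scal X c)
    (h : ∀ k, T.deg X k ≠ ⊥ → c k = d k) : T.Scal X d := by
  obtain ⟨f, hf, h1⟩ := hc
  refine ⟨f, hf, fun k a ha => ?_⟩
  rw [h1 k a ha]
  by_cases hk : T.deg X k = ⊥
  · rw [hk, Submodule.mem_bot] at ha
    rw [ha, smul_zero, smul_zero]
  · rw [h k hk]

/-- the operator with scalars `c` -/
theorem scal_iff {X : V} {c : ℕ → K} :
    T.Scal X c ↔ ∑ i ∈ Finset.range (2 * T.dim X + 1), c i • T.proj X i ∈ T.ops X := by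
  have key : ∀ (k : ℕ) (a : T.H X), a ∈ T.deg X k →
      (∑ i ∈ Finset.range (2 * T.dim X + 1), c i • T.proj X i) a = c k • a := by
    intro k a ha
    rw [LinearMap.sum_apply]
    by_cases hk : k ≤ 2 * T.dim X
    · rw [Finset.sum_eq_single k]
      · rw [LinearMap.smul_apply, T.proj_same ha]
      · intro i _ hi
        rw [LinearMap.smul_apply, T.proj_ne ha (Ne.symm hi), smul_zero]
      · intro h
        exact absurd (Finset.mem_range.2 (by omega)) h
    · rw [T.deg_eq_zero ha (by omega)]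
      simp
  constructor
  · rintro ⟨f, hf, h⟩
    have : f = ∑ i ∈ Finset.range (2 * T.dim X + 1), c i • T.proj X i := by
      ext a
      refine T.hind (P := fun a => f a =
        (∑ i ∈ Finset.range (2 * T.dim X + 1), c i • T.proj X i) a) (by simp) ?_ ?_ a
      · intro i a ha
        rw [key i a ha, h i a ha]
      · intro a b h1 h2
        rw [map_add, map_add, h1, h2]
    rwa [this] at hf
  · intro h
    exact ⟨_, h, key⟩

theorem scal_single {X : V} {i : ℕ} :
    T.Scal X (fun k => if k = i then 1 else 0) ↔ T.proj X i ∈ T.ops X := by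
  have key : ∀ (k : ℕ) (a : T.H X), a ∈ T.deg X k →
      T.proj X i a = (if k = i then (1 : K) else 0) • a := by
    intro k a ha
    split_ifs with h
    · subst h
      rw [T.proj_same ha, one_smul]
    · rw [T.proj_ne ha h, zero_smul]
  constructor
  · rintro ⟨f, hf, h⟩
    have : f = T.proj X i := by
      ext a
      refine T.hind (P := fun a => f a = T.proj X i a) (by simp) ?_ ?_ a
      · intro k a ha
        rw [key k a ha, h k a ha]
      · intro a b h1 h2
        rw [map_add, map_add, h1, h2]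
    rwa [this] at hf
  · intro h
    exact ⟨_, h, key⟩

theorem conjC_iff_scal {X : V} : T.ConjC X ↔ ∀ c : ℕ → K, T.Scal X c := by
  rw [T.conjC_iff]
  constructor
  · intro h c
    rw [scal_iff]
    exact sum_mem fun i _ => Subalgebra.smul_mem _ (h i) _
  · intro h i
    exact scal_single.1 (h _)

/-- contraction of the second factor -/
theorem Scal.shift [CharZero K] {X P : V} {j : ℕ} (hj : j ≤ 2 * T.dim P)
    (hP : T.proj P (2 * T.dim P - j) ∈ T.ops P) (hne : T.proj P (2 * T.dim P - j) ≠ 0)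
    {c : ℕ → K} (h : T.Scal (X ⊗ P) c) : T.Scal X fun k => c (k + j) := by
  obtain ⟨f, ⟨z, hz, rfl⟩, hact⟩ := h
  have hb : T.kunnethComponent P (2 * T.dim P - j) =
      T.component P P j (2 * T.dim P - j) (T.diag P) := by
    unfold kunnethComponent
    rw [show 2 * T.dim P - (2 * T.dim P - j) = j by omega]
  have hPk : T.kunnethComponent P (2 * T.dim P - j) ∈ T.C (P ⊗ P) (T.dim P) := by
    rw [← T.act_mem_ops, T.act_kunneth (by omega)]
    exact hP
  have h1 := T.act_contract' hj (T.C_deg _ _ hz) c hact (T.diag P)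
  rw [← hb] at h1
  have h2 := T.tr_kunneth_diag (i := 2 * T.dim P - j) (by omega) hne
  set ρ := T.tr P (T.pull (lift (𝟙 P) (𝟙 P)) (T.kunnethComponent P (2 * T.dim P - j)))
  have h3 : T.push (P ⊗ P) (X ⊗ X) (T.pull (Cohomology.mix P X).hom z *
      T.pull (fst (P ⊗ P) (X ⊗ X)) (T.kunnethComponent P (2 * T.dim P - j))) ∈
      T.C (X ⊗ X) (T.dim X) := by
    apply T.C_push
    have := T.C_mul (T.C_pull (Cohomology.mix P X).hom hz)
      (T.C_pull (fst (P ⊗ P) (X ⊗ X)) hPk)
    have e : T.dim (X ⊗ P) + T.dim P = T.dim (P ⊗ P) + T.dim X := by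
      rw [T.dim_prod, T.dim_prod]
      omega
    rwa [e] at this
  refine ⟨ρ⁻¹ • T.act (T.push (P ⊗ P) (X ⊗ X) (T.pull (Cohomology.mix P X).hom z *
      T.pull (fst (P ⊗ P) (X ⊗ X)) (T.kunnethComponent P (2 * T.dim P - j)))),
    Subalgebra.smul_mem _ (T.act_mem_ops.mpr h3) _, fun k a ha => ?_⟩
  rw [LinearMap.smul_apply, h1 k a ha, smul_smul, ← mul_assoc, inv_mul_cancel₀ h2, one_mul]

end WeilTheory

end Pool.KC
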